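import Mathlib
import Pool.Agent.H586R3.CT8
import Pool.Agent.Y247.HM.Haus

/-!
# MP_46692b_an: the support of a measure with algebraic Cauchy transform has locally finite length
off a finite set
-/

set_option autoImplicit false

open MeasureTheory Polynomial Metric Set Filter
open scoped ENNReal

namespace Pool.Agent.Results.MP_46692b_an.SupportFiniteLength

open Pool.Agent.H586R3.CT Pool.Agent.Y247.HM

theorem local_length (μ : Measure ℂ) [IsFiniteMeasure μ] {x₀ : ℂ} {R : ℝ} (hR : 0 < R) {k : ℕ}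
    (A : Fin k → ℂ → ℂ) (hA : ∀ j, DifferentiableOn ℂ (A j) (ball x₀ R))
    (hne : ∀ i j, i ≠ j → ∀ z ∈ ball x₀ R, A i z ≠ A j z)
    (hval : ∀ᵐ z : ℂ, z ∈ ball x₀ R → ∃ j, (∫ ζ, (z - ζ)⁻¹ ∂μ) = A j z) :
    μH[1] (μ.support ∩ ball x₀ (R / 4)) < ⊤ := by
  obtain ⟨c, hc, hdens⟩ := local_density μ hR A hA hne hval
  exact (hausdorff_le μ hc (r₀ := R / 8) (by positivity) hdens).trans_lt
    (ENNReal.mul_lt_top ENNReal.ofReal_lt_top (measure_lt_top μ univ))

theorem off_finite (μ : Measure ℂ) [IsFiniteMeasure μ] (P : ℂ[X][X]) (hP : P ≠ 0)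
    (h : ∀ᵐ z : ℂ, P.evalEval z (∫ ζ, (z - ζ)⁻¹ ∂μ) = 0) :
    ∃ F : Set ℂ, F.Finite ∧ ∀ z₀ ∉ F, ∃ r > 0, μH[1] (μ.support ∩ ball z₀ r) < ⊤ := by
  obtain ⟨Q, hQ0, ⟨R, hR, U, V, hUV⟩, t, ht, hPQ⟩ := exists_sep P hP
  have hQ : ∀ᵐ z : ℂ, Q.evalEval z (∫ ζ, (z - ζ)⁻¹ ∂μ) = 0 := by
    have h1 : volume {z : ℂ | t.eval z = 0} = 0 := (finite_zeros ht).measure_zero _
    filter_upwards [h, compl_mem_ae_iff.2 h1] with z hz1 hz2 using hPQ z _ hz1 hz2
  have hl : Q.leadingCoeff ≠ 0 := Polynomial.leadingCoeff_ne_zero.2 hQ0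
  refine ⟨{z : ℂ | R.eval z = 0} ∪ {z : ℂ | Q.leadingCoeff.eval z = 0},
    (finite_zeros hR).union (finite_zeros hl), ?_⟩
  intro z₀ hz₀
  rw [mem_union, not_or] at hz₀
  obtain ⟨r, hr, A, hA, hne, hval⟩ := exists_branches Q hUV hz₀.1 hz₀.2
  refine ⟨r / 4, by positivity, local_length μ hr A hA hne ?_⟩
  filter_upwards [hQ] with z hz hzb
  exact hval z hzb _ hz

/-- **The support of a measure with algebraic Cauchy transform has locally finite length off a
finite set** (this contains the affirmative answer to Q1).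
(1) Let the Cauchy transform `z ↦ ∫ (z - ζ)⁻¹ dμ(ζ)` of the finite positive Borel measure `μ` on the
plane satisfy `P(z, C_μ(z)) = 0` for Lebesgue-almost every `z`, `P ∈ ℂ[z][w]` any nonzero
polynomial. Then there is a finite set `F` such that every `z₀ ∉ F` has a neighbourhood in which the
support of `μ` has finite one-dimensional Hausdorff measure; hence the support is a countable union
of sets of finite length, its Hausdorff dimension is at most one, and its area is zero.
(2) The local form, for arbitrary holomorphic branches: if almost everywhere in a disc `B(z₀, R)` the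
Cauchy transform is equal to one of finitely many holomorphic functions which are pairwise distinct
at every point of the disc, then the support of `μ` has finite length in `B(z₀, R/4)`. -/
theorem result :
    (∀ (μ : Measure ℂ) [IsFiniteMeasure μ] (P : ℂ[X][X]), P ≠ 0 →
      (∀ᵐ z : ℂ, P.evalEval z (∫ ζ, (z - ζ)⁻¹ ∂μ) = 0) →
      (∃ F : Set ℂ, F.Finite ∧ ∀ z₀ ∉ F, ∃ r > 0, μH[1] (μ.support ∩ ball z₀ r) < ⊤) ∧
      (∃ S : ℕ → Set ℂ, μ.support = ⋃ n, S n ∧ ∀ n, μH[1] (S n) < ⊤) ∧
      dimH μ.support ≤ 1 ∧ volume μ.support = 0) ∧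
    (∀ (μ : Measure ℂ) [IsFiniteMeasure μ] (z₀ : ℂ) (R : ℝ) (k : ℕ) (A : Fin k → ℂ → ℂ), 0 < R →
      (∀ j, DifferentiableOn ℂ (A j) (ball z₀ R)) →
      (∀ i j, i ≠ j → ∀ z ∈ ball z₀ R, A i z ≠ A j z) →
      (∀ᵐ z : ℂ, z ∈ ball z₀ R → ∃ j, (∫ ζ, (z - ζ)⁻¹ ∂μ) = A j z) →
      μH[1] (μ.support ∩ ball z₀ (R / 4)) < ⊤) := by
  refine ⟨?_, ?_⟩
  · intro μ _ P hP h
    obtain ⟨F, hF, hloc⟩ := off_finite μ P hP h
    have hsig : ∃ S : ℕ → Set ℂ, μ.support = ⋃ n, S n ∧ ∀ n, μH[1] (S n) < ⊤ := by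
      have hc : ∀ z : (Fᶜ : Set ℂ), ∃ r > 0, μH[1] (μ.support ∩ ball (z : ℂ) r) < ⊤ :=
        fun z => hloc z z.2
      choose r hr hfin using hc
      obtain ⟨T, hT, hTU⟩ := TopologicalSpace.isOpen_iUnion_countable
        (fun z : (Fᶜ : Set ℂ) => ball (z : ℂ) (r z)) (fun _ => isOpen_ball)
      have hcov : μ.support ⊆ F ∪ ⋃ z ∈ T, ball (z : ℂ) (r z) := by
        intro z _
        by_cases hz : z ∈ F
        · exact Or.inl hz
        · right
          rw [hTU]
          exact mem_iUnion.2 ⟨⟨z, hz⟩, mem_ball_self (hr _)⟩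
      -- a countable family of sets
      let G : Set (Set ℂ) := {μ.support ∩ F} ∪ (fun z : (Fᶜ : Set ℂ) => μ.support ∩ ball (z : ℂ) (r z)) '' T
      have hG : G.Countable := (countable_singleton _).union (hT.image _)
      have hGne : G.Nonempty := ⟨_, Or.inl rfl⟩
      obtain ⟨S, hS⟩ := hG.exists_eq_range hGne
      refine ⟨S, ?_, ?_⟩
      · have h1 : (⋃ n, S n) = ⋃₀ G := by rw [hS, sUnion_range]
        rw [h1]
        apply Subset.antisymm
        · intro z hz
          rcases hcov hz with h2 | h2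
          · exact ⟨_, Or.inl rfl, hz, h2⟩
          · obtain ⟨y, hy, hzy⟩ := mem_iUnion₂.1 h2
            exact ⟨_, Or.inr ⟨y, hy, rfl⟩, hz, hzy⟩
        · apply sUnion_subset
          rintro _ (rfl | ⟨y, _, rfl⟩)
          · exact inter_subset_left
          · exact inter_subset_left
      · intro n
        have hn : S n ∈ G := by rw [hS]; exact mem_range_self n
        rcases hn with h2 | ⟨y, _, h2⟩
        · rw [h2]
          have : μH[1] (μ.support ∩ F) = 0 := by
            have hFc : (μ.support ∩ F).Countable := (hF.subset inter_subset_right).countable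
            have := Measure.nullSingletonClass_hausdorff ℂ (d := 1) one_pos
            exact hFc.measure_zero _
          rw [this]
          exact ENNReal.zero_lt_top
        · rw [← h2]
          exact hfin y
    refine ⟨⟨F, hF, hloc⟩, hsig, ?_, support_null μ P hP h⟩
    obtain ⟨S, hS, hfin⟩ := hsig
    rw [hS, dimH_iUnion]
    refine iSup_le fun n => ?_
    have := dimH_le_of_hausdorffMeasure_ne_top (s := S n) (d := 1) (by
      simpa using (hfin n).ne)
    simpa using this
  · intro μ _ z₀ R k A hR hA hne hval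
    exact local_length μ hR A hA hne hval

end Pool.Agent.Results.MP_46692b_an.SupportFiniteLength
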